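import Mathlib

namespace Pool.Agent.Results.MP_746574_co.Tree
open SimpleGraph

variable {V : Type}

/-- `S` is a dominating set. -/
def Dom (G : SimpleGraph V) (S : Set V) : Prop := ∀ x, x ∈ S ∨ ∃ y ∈ S, G.Adj x y

/-- `M` is a minimal dominating set. -/
def MinDom (G : SimpleGraph V) (M : Set V) : Prop := Dom G M ∧ ∀ v ∈ M, ¬ Dom G (M \ {v})

/-- `M₂` arises from `M₁` by an expand move (and `M₁` from `M₂` by a contract move). -/
def Move (G : SimpleGraph V) (M₁ M₂ : Set V) : Prop :=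
  ∃ v, M₂ \ M₁ = {v} ∧ M₁ \ M₂ ⊆ G.neighborSet v

/-- The reconfiguration graph of minimal dominating sets. -/
def Rec (G : SimpleGraph V) : SimpleGraph {M : Set V // MinDom G M} where
  Adj M₁ M₂ := M₁ ≠ M₂ ∧ (Move G M₁.1 M₂.1 ∨ Move G M₂.1 M₁.1)
  symm := ⟨fun _ _ h => ⟨h.1.symm, h.2.symm⟩⟩
  loopless := ⟨fun _ h => h.1 rfl⟩

variable {G : SimpleGraph V}

def Ind (G : SimpleGraph V) (S : Set V) : Prop := ∀ x ∈ S, ∀ y ∈ S, ¬ G.Adj x y

def Fam (G : SimpleGraph V) (M : Set V) : Prop :=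
  Ind G M ∨ ∃ a ∈ M, ∃ w ∈ M, G.Adj a w ∧ Ind G (M \ {a}) ∧ Ind G (M \ {w})

def Nb (G : SimpleGraph V) (M M' : Set V) : Prop :=
  Fam G M' ∧ MinDom G M' ∧ M' ≠ M ∧ (Move G M M' ∨ Move G M' M)

def Star (G : SimpleGraph V) (c : V) : Prop := ∀ x y, G.Adj x y → x = c ∨ y = c

theorem ext [Finite V] {I : Set V} (h : Ind G I) : ∃ M, I ⊆ M ∧ Ind G M ∧ Dom G M := by
  obtain ⟨M, h1, h2⟩ := Finite.exists_le_maximal (p := Ind G) h
  refine ⟨M, h1, h2.1, fun x => ?_⟩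
  by_contra hn
  push Not at hn
  have : Ind G (insert x M) := by
    rintro a (rfl | ha) b (rfl | hb)
    · exact G.loopless.1 _
    · exact hn.2 b hb
    · exact fun h => hn.2 a ha h.symm
    · exact h2.1 a ha b hb
  exact hn.1 (h2.2 this (Set.subset_insert _ _) (Set.mem_insert _ _))

theorem indMin {M : Set V} (h : Ind G M) (hd : Dom G M) : MinDom G M :=
  ⟨hd, fun v hv h' => by
    rcases h' v with h1 | ⟨y, hy, h1⟩
    · exact h1.2 rfl
    · exact h v hv y hy.1 h1⟩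

theorem con [Finite V] {M : Set V} {u x : V} (hd : Dom G M) (hu : u ∈ M) (hi : Ind G (M \ {u}))
    (hx : x ∉ M) (hux : G.Adj u x) (hp : ∀ y ∈ M, y ≠ u → ¬ G.Adj x y) :
    ∃ M', Nb G M M' ∧ Ind G M' ∧ x ∈ M' ∧ u ∉ M' ∧ ∀ y ∈ M, y ≠ u → y ∈ M' := by
  obtain ⟨M', h1, h2, h3⟩ := ext (G := G) (I := insert x (M \ {u})) (by
    rintro a (rfl | ha) b (rfl | hb)
    · exact G.loopless.1 _
    · exact hp b hb.1 hb.2
    · exact fun h => hp a ha.1 ha.2 h.symm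
    · exact hi a ha b hb)
  have hx' : x ∈ M' := h1 (Set.mem_insert _ _)
  have hu' : u ∉ M' := fun h => h2 u h x hx' hux
  have hs : ∀ y ∈ M, y ≠ u → y ∈ M' := fun y hy hne => h1 (Or.inr ⟨hy, hne⟩)
  refine ⟨M', ⟨Or.inl h2, indMin h2 h3, fun h => hu' (h ▸ hu), Or.inr ⟨u, ?_, ?_⟩⟩, h2, hx', hu', hs⟩
  · ext y
    constructor
    · rintro ⟨h4, h5⟩
      by_contra h6
      exact h5 (hs y h4 h6)
    · rintro rfl
      exact ⟨hu, hu'⟩
  · rintro y ⟨h4, h5⟩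
    rcases hd y with h6 | ⟨z, hz, h6⟩
    · exact absurd h6 h5
    · by_cases e : z = u
      · exact e ▸ h6.symm
      · exact absurd h6 (h2 y h4 z (hs z hz e))

theorem epn {M : Set V} {u w : V} (h : MinDom G M) (hu : u ∈ M) (hw : w ∈ M) (huw : G.Adj u w) :
    ∃ x ∉ M, G.Adj u x ∧ ∀ y ∈ M, y ≠ u → ¬ G.Adj x y := by
  have := h.2 u hu
  unfold Dom at this
  push Not at this
  obtain ⟨x, h1, h2⟩ := this
  have hxu : x ≠ u := by
    rintro rfl
    exact h2 w ⟨hw, huw.ne'⟩ huw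
  have hx : x ∉ M := fun h' => h1 ⟨h', hxu⟩
  refine ⟨x, hx, ?_, fun y hy hne => h2 y ⟨hy, hne⟩⟩
  rcases h.1 x with h3 | ⟨z, hz, h3⟩
  · exact absurd h3 hx
  · by_cases e : z = u
    · exact e ▸ h3.symm
    · exact absurd h3 (h2 z ⟨hz, e⟩)

theorem expand {M : Set V} {a w d : V} (hi : Ind G M) (ha : a ∉ M) (hw : w ∈ M) (haw : G.Adj a w)
    (hd : d ∈ M) (hdw : d ≠ w) (had : G.Adj a d)
    (hD : Dom G (insert a {y | y ∈ M ∧ (y = w ∨ ¬ G.Adj a y)})) :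
    ∃ M', Nb G M M' ∧ a ∈ M' ∧ M' ⊆ insert a M ∧ d ∉ M' := by
  have hda : d ≠ a := had.ne'
  have h0 : Ind G (insert a {y | y ∈ M ∧ ¬ G.Adj a y}) := by
    rintro x (rfl | hx) y (rfl | hy)
    · exact G.loopless.1 _
    · exact hy.2
    · exact fun h => hx.2 h.symm
    · exact hi x hx.1 y hy.1
  have mv : ∀ S : Set V, S ⊆ M → (∀ y ∈ M, ¬ G.Adj a y → y ∈ S) → Move G M (insert a S) := by
    intro S h1 h2
    refine ⟨a, ?_, ?_⟩
    · ext y
      constructor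
      · rintro ⟨rfl | h3, h4⟩
        · rfl
        · exact absurd (h1 h3) h4
      · rintro rfl
        exact ⟨Set.mem_insert _ _, ha⟩
    · rintro y ⟨h3, h4⟩
      by_contra h5
      exact h4 (Or.inr (h2 y h3 h5))
  by_cases hc : Dom G (insert a {y | y ∈ M ∧ ¬ G.Adj a y})
  · refine ⟨_, ⟨Or.inl h0, indMin h0 hc, fun h => ha (h ▸ Set.mem_insert _ _),
      Or.inl (mv _ (fun _ h => h.1) (fun y h h' => ⟨h, h'⟩))⟩, Set.mem_insert _ _,
      Set.insert_subset_insert (fun _ h => h.1), ?_⟩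
    rintro (h | h)
    · exact hda h
    · exact h.2 had
  · have e : insert a {y | y ∈ M ∧ (y = w ∨ ¬ G.Adj a y)} \ {w} =
        insert a {y | y ∈ M ∧ ¬ G.Adj a y} := by
      ext y
      constructor
      · rintro ⟨rfl | ⟨h1, h2 | h2⟩, h3⟩
        · exact Or.inl rfl
        · exact absurd h2 h3
        · exact Or.inr ⟨h1, h2⟩
      · rintro (rfl | ⟨h1, h2⟩)
        · exact ⟨Or.inl rfl, haw.ne⟩
        · exact ⟨Or.inr ⟨h1, Or.inr h2⟩, fun h => h2 (h ▸ haw)⟩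
    have hdn : d ∉ insert a {y | y ∈ M ∧ (y = w ∨ ¬ G.Adj a y)} := by
      rintro (h | ⟨-, h | h⟩)
      · exact hda h
      · exact hdw h
      · exact h had
    refine ⟨_, ⟨Or.inr ⟨a, Or.inl rfl, w, Or.inr ⟨hw, Or.inl rfl⟩, haw, ?_, e ▸ h0⟩,
      ⟨hD, ?_⟩, fun h => ha (h ▸ Set.mem_insert _ _),
      Or.inl (mv _ (fun _ h => h.1) (fun y h h' => ⟨h, Or.inr h'⟩))⟩, Set.mem_insert _ _,
      Set.insert_subset_insert (fun _ h => h.1), hdn⟩
    · rintro x ⟨rfl | hx, hx'⟩ y ⟨rfl | hy, hy'⟩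
      · exact absurd rfl hx'
      · exact absurd rfl hx'
      · exact absurd rfl hy'
      · exact hi x hx.1 y hy.1
    · rintro v (rfl | ⟨hv, rfl | hv'⟩) h
      · rcases h d with h1 | ⟨y, ⟨rfl | hy, hy'⟩, h1⟩
        · exact hdn h1.1
        · exact hy' rfl
        · exact hi d hd y hy.1 h1
      · exact hc (e ▸ h)
      · rcases h v with h1 | ⟨y, ⟨rfl | hy, hy'⟩, h1⟩
        · exact h1.2 rfl
        · exact hv' h1.symm
        · exact hi v hv y hy.1 h1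

theorem mn [Finite V] {M : Set V} (hi : Ind G M) (T : Set V) (hne : T.Nonempty)
    (hT : ∀ z ∈ T, z ∉ M ∧ ∃ d ∈ M, ∃ d' ∈ M, d ≠ d' ∧ G.Adj z d ∧ G.Adj z d') :
    ∃ b ∈ T, ∀ w ∈ M, G.Adj b w →
      (∀ z ∉ M, z ∉ T → ∃ y ∈ M, G.Adj z y ∧ (y = w ∨ ¬ G.Adj b y)) →
      ∃ M', Nb G M M' ∧ b ∈ M' ∧ M' ⊆ insert b M ∧ ∃ d ∈ M, d ≠ w ∧ G.Adj b d ∧ d ∉ M' := by
  obtain ⟨b, hb, hmin⟩ := Set.exists_min_image T (fun z => {y | y ∈ M ∧ G.Adj z y}.ncard)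
    T.toFinite hne
  refine ⟨b, hb, fun w hw hbw ho => ?_⟩
  obtain ⟨hbM, d1, hd1, d2, hd2, h12, a1, a2⟩ := hT b hb
  obtain ⟨d, hd, hdw, hbd⟩ : ∃ d ∈ M, d ≠ w ∧ G.Adj b d := by
    by_cases e : d1 = w
    · exact ⟨d2, hd2, fun h => h12 (e.trans h.symm), a2⟩
    · exact ⟨d1, hd1, e, a1⟩
  obtain ⟨M', h1, h2, h3, h4⟩ := expand hi hbM hw hbw hd hdw hbd (by
    intro z
    by_cases hz : z ∈ M
    · by_cases e : G.Adj b z
      · exact Or.inr ⟨b, Or.inl rfl, e.symm⟩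
      · exact Or.inl (Or.inr ⟨hz, Or.inr e⟩)
    · by_cases hzT : z ∈ T
      · right
        by_contra hn
        push Not at hn
        have hs : {y | y ∈ M ∧ G.Adj z y} ⊂ {y | y ∈ M ∧ G.Adj b y} := by
          refine ⟨fun y hy => ⟨hy.1, ?_⟩, fun h => ?_⟩
          · by_contra h
            exact hn y (Or.inr ⟨hy.1, Or.inr h⟩) hy.2
          · exact hn w (Or.inr ⟨hw, Or.inl rfl⟩) (h ⟨hw, hbw⟩).2
        exact absurd (Set.ncard_lt_ncard hs) (not_lt.2 (hmin z hzT))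
      · obtain ⟨y, hy, h1, h2⟩ := ho z hz hzT
        exact Or.inr ⟨y, Or.inr ⟨hy, h2⟩, h1⟩)
  exact ⟨M', h1, h2, h3, d, hd, hdw, hbd, h4⟩

theorem two [Finite V] [Nonempty V] (hs : ∀ c, ¬ Star G c) {M : Set V} (hF : Fam G M)
    (hM : MinDom G M) : ∃ M1 M2, M1 ≠ M2 ∧ Nb G M M1 ∧ Nb G M M2 := by
  rcases hF with hi | ⟨a, ha, w, hw, haw, h1, h2⟩
  swap
  · obtain ⟨x, x1, x2, x3⟩ := epn hM ha hw haw
    obtain ⟨y, y1, y2, y3⟩ := epn hM hw ha haw.symm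
    obtain ⟨M1, n1, -, -, -, p1⟩ := con hM.1 ha h1 x1 x2 x3
    obtain ⟨M2, n2, -, -, p2, -⟩ := con hM.1 hw h2 y1 y2 y3
    exact ⟨M1, M2, fun h => p2 (h ▸ p1 w hw haw.ne'), n1, n2⟩
  have hi' : ∀ u, Ind G (M \ {u}) := fun u x hx y hy => hi x hx.1 y hy.1
  let Big : Set V := {z | z ∉ M ∧ ∃ d ∈ M, ∃ d' ∈ M, d ≠ d' ∧ G.Adj z d ∧ G.Adj z d'}
  have small : ∀ z ∉ M, z ∉ Big → ∃ u ∈ M, G.Adj u z ∧ ∀ y ∈ M, y ≠ u → ¬ G.Adj z y := by
    intro z hz hb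
    rcases hM.1 z with h | ⟨u, hu, h⟩
    · exact absurd h hz
    · exact ⟨u, hu, h.symm, fun y hy hne h' => hb ⟨hz, y, hy, u, hu, hne, h', h⟩⟩
  have edge : ∀ c, ∃ x y, G.Adj x y ∧ x ≠ c ∧ y ≠ c ∧ x ∉ M := by
    intro c
    have := hs c
    unfold Star at this
    push Not at this
    obtain ⟨x, y, h, hx, hy⟩ := this
    by_cases e : x ∈ M
    · exact ⟨y, x, h.symm, hy, hx, fun h' => hi x e y h' h⟩
    · exact ⟨x, y, h, hx, hy, e⟩
  by_cases hall : ∀ z ∉ M, z ∈ Big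
  · obtain ⟨x0, -, -, -, -, hx0⟩ := edge (Classical.arbitrary V)
    obtain ⟨a, ha, hA⟩ := mn hi Mᶜ ⟨x0, hx0⟩ (fun z hz => hall z hz)
    obtain ⟨-, w, hw, -, -, -, haw, -⟩ := hall a ha
    obtain ⟨M1, n1, -, s1, -⟩ := hA w hw haw (fun z hz hz' => absurd hz hz')
    obtain ⟨x, -, -, hxa, -, hx⟩ := edge a
    obtain ⟨b, hb, hB⟩ := mn hi {z | z ∉ M ∧ z ≠ a} ⟨x, hx, hxa⟩ (fun z hz => hall z hz.1)
    obtain ⟨w', hw', hbw', hk⟩ : ∃ w' ∈ M, G.Adj b w' ∧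
        ∃ y ∈ M, G.Adj a y ∧ (y = w' ∨ ¬ G.Adj b y) := by
      by_cases e : G.Adj b w
      · exact ⟨w, hw, e, w, hw, haw, Or.inl rfl⟩
      · obtain ⟨-, w', hw', -, -, -, hbw', -⟩ := hall b hb.1
        exact ⟨w', hw', hbw', w, hw, haw, Or.inr e⟩
    obtain ⟨M2, n2, b2, -⟩ := hB w' hw' hbw' (fun z hz hz' => by
      have : z = a := by by_contra h; exact hz' ⟨hz, h⟩
      exact this ▸ hk)
    refine ⟨M1, M2, fun h => ?_, n1, n2⟩
    rcases s1 (h ▸ b2) with h' | h'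
    · exact hb.2 h'
    · exact hb.1 h'
  push Not at hall
  obtain ⟨x, hx, hxb⟩ := hall
  obtain ⟨u, hu, hux, hp⟩ := small x hx hxb
  obtain ⟨M1, n1, -, -, -, p1⟩ := con hM.1 hu (hi' u) hx hux hp
  by_cases h2 : ∃ z ∉ M, z ∉ Big ∧ ¬ G.Adj u z
  · obtain ⟨z, hz, hzb, huz⟩ := h2
    obtain ⟨u', hu', hux', hp'⟩ := small z hz hzb
    obtain ⟨M2, n2, -, -, q2, -⟩ := con hM.1 hu' (hi' u') hz hux' hp'
    exact ⟨M1, M2, fun h => q2 (h ▸ p1 u' hu' (fun e => huz (e ▸ hux'))), n1, n2⟩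
  push Not at h2
  by_cases hb : Big.Nonempty
  · obtain ⟨b, hb, hB⟩ := mn hi Big hb (fun z hz => hz)
    obtain ⟨w, hw, hbw, hk⟩ : ∃ w ∈ M, G.Adj b w ∧ (u = w ∨ ¬ G.Adj b u) := by
      by_cases e : G.Adj b u
      · exact ⟨u, hu, e, Or.inl rfl⟩
      · obtain ⟨-, w', hw', -, -, -, hbw', -⟩ := hb
        exact ⟨w', hw', hbw', Or.inr e⟩
    obtain ⟨M2, n2, -, -, d, hd, hdw, hbd, q2⟩ := hB w hw hbw
      (fun z hz hz' => ⟨u, hu, (h2 z hz hz').symm, hk⟩)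
    refine ⟨M1, M2, fun h => q2 (h ▸ p1 d hd ?_), n1, n2⟩
    rintro rfl
    rcases hk with h' | h'
    · exact hdw h'
    · exact h' hbd
  · have nb : ∀ z, z ∉ Big := fun z hz => hb ⟨z, hz⟩
    have pr : ∀ z ∉ M, ∀ y ∈ M, y ≠ u → ¬ G.Adj z y := fun z hz y hy hne h =>
      nb z ⟨hz, y, hy, u, hu, hne, h, (h2 z hz (nb z)).symm⟩
    obtain ⟨x1, y1, h, -, hy, hx1⟩ := edge u
    have hy1 : y1 ∉ M := fun h' => pr x1 hx1 y1 h' hy h
    obtain ⟨N1, m1, -, q1, -⟩ := con hM.1 hu (hi' u) hx1 (h2 _ hx1 (nb _)) (pr _ hx1)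
    obtain ⟨N2, m2, i2, q2, -⟩ := con hM.1 hu (hi' u) hy1 (h2 _ hy1 (nb _)) (pr _ hy1)
    exact ⟨N1, N2, fun e => i2 x1 (e ▸ q1) y1 q2 h, m1, m2⟩

theorem cyc {W : Type} [Finite W] [Nonempty W] (H : SimpleGraph W)
    (h : ∀ v, ∃ a b, a ≠ b ∧ H.Adj v a ∧ H.Adj v b) : ¬ H.IsAcyclic := by
  intro hH
  obtain ⟨u, v, p, hp, hmax⟩ := Walk.exists_isPath_forall_isPath_length_le_length H
  obtain ⟨a, b, hab, ha, hb⟩ := h u
  have key : ∀ w, H.Adj u w → w = p.snd := by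
    intro w hw
    apply hH.eq_snd_of_adj_start hp hw
    by_contra hn
    have := hmax _ _ _ (hp.cons hn (h := hw.symm))
    simp at this
  exact hab ((key a ha).trans (key b hb).symm)

theorem star_of_tree [Finite V] [Nonempty V] (h : (Rec G).IsTree) : ∃ c, Star G c := by
  by_contra hs
  push Not at hs
  obtain ⟨M0, -, h1, h2⟩ := ext (G := G) (I := ∅) (by simp [Ind])
  haveI : Nonempty {M : {M : Set V // MinDom G M} | Fam G M.1} := ⟨⟨⟨M0, indMin h1 h2⟩, Or.inl h1⟩⟩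
  refine cyc ((Rec G).induce {M | Fam G M.1}) (fun M => ?_) (h.isAcyclic.induce _)
  obtain ⟨M1, M2, hne, n1, n2⟩ := two hs M.2 M.1.2
  refine ⟨⟨⟨M1, n1.2.1⟩, n1.1⟩, ⟨⟨M2, n2.2.1⟩, n2.1⟩, fun e => hne (congrArg (·.1.1) e), ?_, ?_⟩
  · exact ⟨fun e => n1.2.2.1 (congrArg (·.1) e).symm, n1.2.2.2⟩
  · exact ⟨fun e => n2.2.2.1 (congrArg (·.1) e).symm, n2.2.2.2⟩

theorem tree_of_star [Finite V] {c : V} (h : Star G c) : (Rec G).IsTree := by
  classical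
  have hin : ∀ M, MinDom G M → c ∈ M → M = {x | ¬ G.Adj c x} := by
    intro M hM hc
    ext x
    constructor
    · intro hx hcx
      refine hM.2 x hx fun y => ?_
      by_cases e : G.Adj c y
      · exact Or.inr ⟨c, ⟨hc, hcx.ne⟩, e.symm⟩
      · left
        rcases hM.1 y with h1 | ⟨z, hz, h1⟩
        · exact ⟨h1, fun e' => e (e' ▸ hcx)⟩
        · rcases h y z h1 with rfl | rfl
          · exact ⟨hc, hcx.ne⟩
          · exact absurd h1.symm e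
    · intro hx
      rcases hM.1 x with h1 | ⟨z, hz, h1⟩
      · exact h1
      · rcases h x z h1 with rfl | rfl
        · exact hc
        · exact absurd h1.symm hx
  have hout : ∀ M, MinDom G M → c ∉ M → M = {x | x ≠ c} := by
    intro M hM hc
    ext x
    constructor
    · rintro hx rfl
      exact hc hx
    · intro hx
      rcases hM.1 x with h1 | ⟨z, hz, h1⟩
      · exact h1
      · rcases h x z h1 with rfl | rfl
        · exact absurd rfl hx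
        · exact absurd hz hc
  have inj : ∀ M M' : {M : Set V // MinDom G M}, (c ∈ M.1 ↔ c ∈ M'.1) → M = M' := by
    intro M M' e
    apply Subtype.ext
    by_cases hc : c ∈ M.1
    · rw [hin _ M.2 hc, hin _ M'.2 (e.1 hc)]
    · rw [hout _ M.2 hc, hout _ M'.2 (fun h' => hc (e.2 h'))]
  have mv : ∀ M M' : {M : Set V // MinDom G M}, c ∉ M.1 → c ∈ M'.1 → Move G M.1 M'.1 := by
    intro M M' h1 h2
    rw [hout _ M.2 h1]
    refine ⟨c, ?_, ?_⟩
    · ext x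
      constructor
      · rintro ⟨-, h3⟩
        exact not_not.1 h3
      · rintro rfl
        exact ⟨h2, fun h3 => h3 rfl⟩
    · rw [hin _ M'.2 h2]
      rintro x ⟨-, h3⟩
      exact not_not.1 h3
  obtain ⟨M0, -, h1, h2⟩ := ext (G := G) (I := ∅) (by simp [Ind])
  haveI : Nonempty {M : Set V // MinDom G M} := ⟨⟨M0, indMin h1 h2⟩⟩
  refine ⟨⟨fun M M' => ?_⟩, ?_⟩
  · by_cases e : M = M'
    · exact e ▸ Reachable.refl _
    · refine Adj.reachable ⟨e, ?_⟩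
      by_cases hc : c ∈ M.1
      · exact Or.inr (mv _ _ (fun h' => e (inj _ _ (iff_of_true hc h'))) hc)
      · exact Or.inl (mv _ _ hc (by
          by_contra h'
          exact e (inj _ _ (iff_of_false hc h'))))
  · have hinj : Function.Injective (fun M : {M : Set V // MinDom G M} => decide (c ∈ M.1)) :=
      fun M M' e => inj _ _ (by simpa using e)
    exact IsAcyclic.comap (G' := (⊤ : SimpleGraph Bool)) ⟨_, fun h => hinj.ne h.ne⟩ hinj
      (IsAcyclic.of_card_le_two (by simp))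

theorem iso_of_star [Finite V] {c : V} (h : Star G c) : ∃ n m : ℕ,
    Nonempty (G ≃g (⊥ : SimpleGraph (Fin n)).sum (completeBipartiteGraph (Fin 1) (Fin m))) := by
  obtain ⟨n, ⟨eI⟩⟩ := Finite.exists_equiv_fin {x // x ≠ c ∧ ¬ G.Adj c x}
  obtain ⟨m, ⟨eL⟩⟩ := Finite.exists_equiv_fin {x // G.Adj c x}
  let g : Fin n ⊕ (Fin 1 ⊕ Fin m) → V :=
    Sum.elim (fun i => (eI.symm i).1) (Sum.elim (fun _ => c) (fun j => (eL.symm j).1))
  have hI : ∀ i x, ¬ G.Adj (eI.symm i).1 x := by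
    intro i x hx
    rcases h _ _ hx with e | e
    · exact (eI.symm i).2.1 e
    · exact (eI.symm i).2.2 (e ▸ hx.symm)
  have hL : ∀ j, G.Adj c (eL.symm j).1 := fun j => (eL.symm j).2
  have hLL : ∀ j j', ¬ G.Adj (eL.symm j).1 (eL.symm j').1 := by
    intro j j' hx
    rcases h _ _ hx with e | e
    · exact (hL j).ne' e
    · exact (hL j').ne' e
  have hb : Function.Bijective g := by
    constructor
    · rintro (i | i | i) (j | j | j) e <;> simp only [g, Sum.elim_inl, Sum.elim_inr] at e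
      · rw [eI.symm.injective (Subtype.ext e)]
      · exact absurd e (eI.symm i).2.1
      · exact absurd (e ▸ hL j) (eI.symm i).2.2
      · exact absurd e.symm (eI.symm j).2.1
      · rw [Subsingleton.elim i j]
      · exact absurd e (hL j).ne
      · exact absurd (e ▸ hL i) (eI.symm j).2.2
      · exact absurd e (hL i).ne'
      · rw [eL.symm.injective (Subtype.ext e)]
    · intro x
      by_cases e : x = c
      · exact ⟨.inr (.inl 0), e.symm⟩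
      · by_cases e' : G.Adj c x
        · exact ⟨.inr (.inr (eL ⟨x, e'⟩)), by simp [g]⟩
        · exact ⟨.inl (eI ⟨x, e, e'⟩), by simp [g]⟩
  refine ⟨n, m, ⟨(show _ ≃g G from ⟨Equiv.ofBijective g hb, ?_⟩).symm⟩⟩
  have hI' : ∀ i x, ¬ G.Adj x (eI.symm i).1 := fun i x hx => hI i x hx.symm
  have hL' : ∀ j, G.Adj (eL.symm j).1 c := fun j => (hL j).symm
  rintro (i | i | i) (j | j | j) <;> simp [g, hI, hI', hL, hL', hLL]

theorem result (V : Type) [Finite V] [Nonempty V] (G : SimpleGraph V) :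
    (Rec G).IsTree ↔ ∃ n m : ℕ,
      Nonempty (G ≃g (⊥ : SimpleGraph (Fin n)).sum (completeBipartiteGraph (Fin 1) (Fin m))) := by
  constructor
  · intro h
    obtain ⟨c, hc⟩ := star_of_tree h
    exact iso_of_star hc
  · rintro ⟨n, m, ⟨e⟩⟩
    refine tree_of_star (c := e.symm (.inr (.inl 0))) fun x y h => ?_
    have h' := e.map_rel_iff.2 h
    rw [← e.apply_eq_iff_eq_symm_apply, ← e.apply_eq_iff_eq_symm_apply]
    generalize e x = a at h'
    generalize e y = b at h'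
    rcases a with (i | i | i) <;> rcases b with (j | j | j) <;> simp at h' ⊢
    all_goals exact Subsingleton.elim _ _

end Pool.Agent.Results.MP_746574_co.Tree
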